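import Mathlib
import Pool.Agent.H.MP_c1a8be_al.A

namespace Pool.Agent.Results.MP_c1a8be_al.No

open Filter Topology List FreeGroup Pool.Agent.H.MP_c1a8be_al

variable {S : Type} [DecidableEq S]

/-- `h_w(g)` for non-self-overlapping `w`: occurrences of `w` minus occurrences of `w⁻¹`
in the reduced word of `g`. -/
def brooks (w g : FreeGroup S) : ℝ :=
  (occ w.toWord g.toWord : ℝ) - (occ w⁻¹.toWord g.toWord : ℝ)

/-- Homogenization. -/
noncomputable def homog (φ : FreeGroup S → ℝ) (g : FreeGroup S) : ℝ :=
  limUnder atTop (fun n : ℕ => φ (g ^ n) / n)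

def IsQuasi (φ : FreeGroup S → ℝ) : Prop := ∃ D : ℝ, ∀ g h, |φ g + φ h - φ (g * h)| ≤ D

def ind (p : Prop) [Decidable p] : ℝ := if p then 1 else 0

def hl (l x : List (S × Bool)) : ℝ := (occ l x : ℝ) - occ (invRev l) x

lemma nso_inv {l : List (S × Bool)} (h : NSO l) : NSO (invRev l) := by
  refine ⟨fun e => h.1 (by simpa using congrArg invRev e), fun u hu hl hp hs => ?_⟩
  obtain ⟨t, ht⟩ := hp
  obtain ⟨r, hr⟩ := hs
  refine h.2 (invRev u) (fun e => hu (by simpa using congrArg invRev e)) (by simpa using hl)
    ⟨invRev r, ?_⟩ ⟨invRev t, ?_⟩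
  · rw [← invRev_append, hr, invRev_invRev]
  · rw [← invRev_append, ht, invRev_invRev]

def fl (x : S × Bool) : S × Bool := (x.1, !x.2)

omit [DecidableEq S] in
lemma fl_fl (x : S × Bool) : fl (fl x) = x := by simp [fl]

omit [DecidableEq S] in
lemma inv_single (x : S × Bool) : invRev [x] = [fl x] := by simp [invRev, fl]

omit [DecidableEq S] in
lemma inv_rep (k : ℕ) (x : S × Bool) : invRev (replicate k x) = replicate k (fl x) := by
  simp [invRev, fl]

lemma big_inv {K : ℕ} {l : List (S × Bool)} (h : Big K l) : Big K (invRev l) := by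
  obtain ⟨x, y, hxy, k, hk, h⟩ := h
  refine ⟨fl x, fl y, fun e => hxy (by rw [← fl_fl x, e, fl_fl]), k, hk, ?_⟩
  rcases h with ⟨u, v, rfl⟩ | ⟨u, v, rfl⟩
  · right
    refine ⟨invRev v, invRev u, ?_⟩
    rw [invRev_append, invRev_append, invRev_cons, inv_rep, inv_single]; simp
  · left
    refine ⟨invRev v, invRev u, ?_⟩
    rw [invRev_append, invRev_append, invRev_append, inv_rep, inv_single]; simp

lemma red_inv {l : List (S × Bool)} (h : IsReduced (invRev l)) : IsReduced l := by
  rw [isReduced_iff_reduce_eq] at h ⊢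
  rw [reduce_invRev] at h
  exact invRev_injective h

variable [Fintype S]

lemma sum_fl (f : S × Bool → ℝ) : ∑ s, f (fl s) = ∑ s, f s :=
  Equiv.sum_comp (Function.Involutive.toPerm fl fl_fl) f

lemma hl_right (l x : List (S × Bool)) :
    hl l x - ∑ s, hl (l ++ [s]) x = ind (l <:+ x) - ind (invRev l <+: x) := by
  simp only [hl, invRev_append, inv_single, Finset.sum_sub_distrib, singleton_append]
  rw [sum_fl (fun s => (occ (s :: invRev l) x : ℝ)), occ_right l x, occ_left (invRev l) x]
  simp only [ind]; push_cast; ring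

lemma hl_left (l x : List (S × Bool)) :
    hl l x - ∑ s, hl (s :: l) x = ind (l <+: x) - ind (invRev l <:+ x) := by
  simp only [hl, invRev_cons (L := l), inv_single, Finset.sum_sub_distrib]
  rw [sum_fl (fun s => (occ (invRev l ++ [s]) x : ℝ)), occ_left l x, occ_right (invRev l) x]
  simp only [ind]; push_cast; ring

def T (a b : S × Bool) (k : ℕ) (l : List (S × Bool)) : ℝ :=
  ind (l = a :: replicate k b) - ∑ s, ind (l = a :: replicate k b ++ [s]) -
    ind (l = replicate k b ++ [a]) + ∑ s, ind (l = s :: (replicate k b ++ [a]))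

def A (a b : S × Bool) (l : List (S × Bool)) : ℝ :=
  ∑ k ∈ Finset.range (l.length + 1), k * T a b k l

lemma T_ne {a b : S × Bool} {k : ℕ} {l : List (S × Bool)} (h : T a b k l ≠ 0) :
    l.length ≤ k + 2 ∧ (a :: replicate k b <:+: l ∨ replicate k b ++ [a] <:+: l) := by
  by_contra hc
  apply h
  have h1 : l ≠ a :: replicate k b := by
    rintro rfl; exact hc ⟨by simp, Or.inl infix_rfl⟩
  have h2 : ∀ s, l ≠ a :: replicate k b ++ [s] := by
    rintro s rfl; exact hc ⟨by simp, Or.inl (prefix_append _ _).isInfix⟩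
  have h3 : l ≠ replicate k b ++ [a] := by
    rintro rfl; exact hc ⟨by simp, Or.inr infix_rfl⟩
  have h4 : ∀ s, l ≠ s :: (replicate k b ++ [a]) := by
    rintro s rfl; exact hc ⟨by simp, Or.inr (suffix_cons _ _).isInfix⟩
  simp only [T, ind, h1, h2, h3, h4, if_false]; simp

lemma A_nso {a b : S × Bool} (hab : a ≠ b) {l : List (S × Bool)} (h : ¬ NSO l) : A a b l = 0 := by
  refine Finset.sum_eq_zero (fun k _ => ?_)
  have hb : a ∉ replicate k b := fun h => hab (eq_of_mem_replicate h)
  have h1 : l ≠ a :: replicate k b := by rintro rfl; exact h (nso_cons _ _ hb)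
  have h3 : l ≠ replicate k b ++ [a] := by rintro rfl; exact h (nso_snoc _ _ hb)
  have h2 : ∑ s, ind (l = a :: replicate k b ++ [s]) = ind (l = a :: replicate k b ++ [a]) := by
    refine Finset.sum_eq_single a (fun s _ hs => if_neg ?_) (by simp)
    rintro rfl
    exact h (nso_cons a (replicate k b ++ [s]) (by simp [hab, hs.symm]))
  have h4 : ∑ s, ind (l = s :: (replicate k b ++ [a])) = ind (l = a :: replicate k b ++ [a]) := by
    refine Finset.sum_eq_single a (fun s _ hs => if_neg ?_) (by simp)
    rintro rfl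
    exact h (nso_snoc a (s :: replicate k b) (by simp [hab, hs.symm]))
  rw [T, h2, h4]
  simp [ind, h1, h3]

lemma key {a b : S × Bool} (hab : a ≠ b) (Np : Set (FreeGroup S))
    (h1 : ∀ w ∈ Np, NSO w.toWord) (h2 : ∀ w, NSO w.toWord → (w ∈ Np ↔ w⁻¹ ∉ Np))
    (d : List (S × Bool) → ℝ) (K : ℕ) (hred : ∀ l, ¬ IsReduced l → d l = 0)
    (hK : ∀ l, Big K l → d l = 0) (hanti : ∀ l, d (invRev l) = - d l) :
    {w : FreeGroup S | (A a b w.toWord - A a b w⁻¹.toWord) * d w.toWord ≠ 0}.Finite ∧
    ∑ᶠ w ∈ Np, (A a b w.toWord - A a b w⁻¹.toWord) * d w.toWord =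
      ∑ k ∈ Finset.range K, k * ((d (a :: replicate k b) - ∑ s, d (a :: replicate k b ++ [s])) -
        (d (replicate k b ++ [a]) - ∑ s, d (s :: (replicate k b ++ [a])))) := by
  set F : FreeGroup S → ℝ := fun w => A a b w.toWord * d w.toWord with hF
  have e0 : ∀ w : FreeGroup S, (A a b w.toWord - A a b w⁻¹.toWord) * d w.toWord = F w + F w⁻¹ := by
    intro w; simp only [hF, toWord_inv, hanti]; ring
  have e1 : ∀ l, A a b l * d l = ∑ k ∈ Finset.range K, k * (T a b k l * d l) := by
    intro l
    rw [A, Finset.sum_mul]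
    simp only [mul_assoc]
    rw [Finset.sum_subset (Finset.range_subset_range.2 (show l.length + 1 ≤ l.length + 1 + K by omega)),
      Finset.sum_subset (Finset.range_subset_range.2 (show K ≤ l.length + 1 + K by omega))]
    · intro k _ hk
      by_cases h : T a b k l = 0
      · simp [h]
      · rw [hK l ⟨a, b, hab, k, by simpa using hk, (T_ne h).2⟩]; simp
    · intro k _ hk
      by_cases h : T a b k l = 0
      · simp [h]
      · exfalso
        simp at hk
        rcases (T_ne h).2 with h | h <;> have := h.length_le <;> simp at this <;> omega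
  have hW : {w : FreeGroup S | w.toWord.length ≤ K + 2}.Finite :=
    (List.finite_length_le (S × Bool) (K + 2)).preimage toWord_injective.injOn
  have hs : Function.support F ⊆ hW.toFinset := by
    intro w hw
    simp only [Function.mem_support, hF, e1] at hw
    obtain ⟨k, hk, hw⟩ := Finset.exists_ne_zero_of_sum_ne_zero hw
    have := (T_ne (left_ne_zero_of_mul (right_ne_zero_of_mul hw))).1
    simp at hk ⊢; omega
  have hf : (Function.support F).Finite := (Finset.finite_toSet _).subset hs
  have hf' : (Function.support fun w => F w⁻¹).Finite := by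
    refine (hf.preimage inv_injective.injOn).subset (fun w hw => hw)
  refine ⟨(hf.union hf').subset (fun w hw => ?_), ?_⟩
  · simp only [Set.mem_setOf_eq, e0] at hw
    by_contra hc
    simp only [Set.mem_union, Function.mem_support, not_or, not_not] at hc
    exact hw (by rw [hc.1, hc.2, add_zero])
  simp only [e0]
  rw [finsum_mem_add_distrib' (hf.inter_of_right _) (hf'.inter_of_right _),
    finsum_mem_eq_of_bijOn (s := Np) (t := {w | w⁻¹ ∈ Np}) (f := fun w => F w⁻¹) (g := F) (fun w => w⁻¹)
      ⟨fun w hw => by simpa using hw, inv_injective.injOn, fun w hw => ⟨w⁻¹, hw, inv_inv w⟩⟩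
      (fun _ _ => rfl),
    ← finsum_mem_union' _ (hf.inter_of_right _) (hf.inter_of_right _),
    finsum_mem_inter_support_eq' F _ Set.univ, finsum_mem_univ,
    finsum_eq_sum_of_support_subset F hs]
  · have e2 : ∀ l0 : List (S × Bool), l0.length ≤ K + 2 →
        ∑ w ∈ hW.toFinset, ind (w.toWord = l0) * d w.toWord = d l0 := by
      intro l0 hl
      by_cases hr : IsReduced l0
      · have hm : (FreeGroup.mk l0).toWord = l0 := by rw [toWord_mk, hr.reduce_eq]
        rw [Finset.sum_eq_single (FreeGroup.mk l0)]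
        · simp [ind, hm, -toWord_mk]
        · intro w _ hw
          rw [ind, if_neg, zero_mul]
          rintro rfl; exact hw mk_toWord.symm
        · intro h; exact absurd (by simpa [hm, -toWord_mk] using hl) h
      · rw [hred l0 hr]
        refine Finset.sum_eq_zero (fun w _ => ?_)
        rw [ind, if_neg, zero_mul]
        rintro rfl; exact hr isReduced_toWord
    simp only [hF, e1]
    rw [Finset.sum_comm]
    refine Finset.sum_congr rfl (fun k hk => ?_)
    rw [← Finset.mul_sum]
    congr 1
    simp only [Finset.mem_range] at hk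
    simp only [T, add_mul, sub_mul, Finset.sum_mul, Finset.sum_add_distrib, Finset.sum_sub_distrib]
    rw [Finset.sum_comm, Finset.sum_comm (s := hW.toFinset), e2 _ (by simp; omega),
      e2 _ (by simp; omega), Finset.sum_congr rfl (fun s _ => e2 _ (by simp; omega)),
      Finset.sum_congr rfl (fun s _ => e2 (s :: (replicate k b ++ [a])) (by simp; omega))]
    ring
  · intro w hw
    have hn : NSO w.toWord := by
      by_contra hc
      exact hw (by simp [hF, A_nso hab hc])
    have := h2 w hn
    simp only [Set.mem_union, Set.mem_setOf_eq, Set.mem_univ, iff_true]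
    tauto
  · rw [Set.disjoint_left]
    intro w hw hw'
    exact (h2 w (h1 w hw)).1 hw hw'

omit [Fintype S] [DecidableEq S] in
lemma red_inf {l x : List (S × Bool)} (hx : IsReduced x) (h : l <:+: x) : IsReduced l := by
  obtain ⟨s, t, rfl⟩ := h
  exact List.IsChain.right_of_append (List.IsChain.left_of_append hx)

omit [Fintype S] in
lemma hl_red {l x : List (S × Bool)} (hx : IsReduced x) (h : ¬ IsReduced l) : hl l x = 0 := by
  rw [hl, occ_zero (fun hi => h (red_inf hx hi)), occ_zero (fun hi => h (red_inv (red_inf hx hi)))]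
  simp

omit [Fintype S] in
lemma pw (g : FreeGroup S) (n : ℕ) (hn : 1 ≤ n) : (g ^ n).toWord =
    reduceCyclically.conjugator g.toWord ++ (replicate n (reduceCyclically g.toWord)).flatten ++
      invRev (reduceCyclically.conjugator g.toWord) := by
  rw [toWord_pow, reduceCyclically.reduce_flatten_replicate isReduced_toWord, if_neg (by omega)]

omit [Fintype S] in
lemma occ_lim (l : List (S × Bool)) (hl : l ≠ []) (g : FreeGroup S) :
    ∃ L, Tendsto (fun n : ℕ => (occ l (g ^ n).toWord : ℝ) / n) atTop (𝓝 L) ∧
      (Big (reduceCyclically g.toWord).length l → L = 0) := by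
  obtain ⟨L, hL⟩ := lim_pow l hl (reduceCyclically g.toWord)
  refine ⟨L, tend_of_bdd _ _ _ L (fun n hn => by rw [pw g n hn]; exact sandwich l hl _ _ _) hL,
    fun hb => ?_⟩
  simp only [occ_zero (big_not hb _ le_rfl _)] at hL
  simpa [eq_comm] using hL

noncomputable def dl (g : FreeGroup S) (l : List (S × Bool)) : ℝ :=
  limUnder atTop (fun n : ℕ => hl l (g ^ n).toWord / n)

omit [Fintype S] in
lemma dl_lim (g : FreeGroup S) (l : List (S × Bool)) :
    Tendsto (fun n : ℕ => hl l (g ^ n).toWord / n) atTop (𝓝 (dl g l)) ∧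
      (Big (reduceCyclically g.toWord).length l → dl g l = 0) := by
  by_cases h : l = []
  · subst h
    refine ⟨tendsto_nhds_limUnder ⟨0, by simp [hl]⟩, fun hb => ?_⟩
    have := hb.len; simp at this
  obtain ⟨L, h1, h2⟩ := occ_lim l h g
  obtain ⟨L', h3, h4⟩ := occ_lim (invRev l) (fun e => h (by simpa using congrArg invRev e)) g
  have : Tendsto (fun n : ℕ => hl l (g ^ n).toWord / n) atTop (𝓝 (L - L')) :=
    (h1.sub h3).congr (fun n => by rw [hl]; ring)
  refine ⟨tendsto_nhds_limUnder ⟨_, this⟩, fun hb => ?_⟩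
  rw [dl, this.limUnder_eq, h2 hb, h4 (big_inv hb), sub_zero]

lemma dl_rel (g : FreeGroup S) (l : List (S × Bool)) (f : S × Bool → List (S × Bool))
    (h : ∀ x, |hl l x - ∑ s, hl (f s) x| ≤ 1) : dl g l - ∑ s, dl g (f s) = 0 := by
  have a1 := tend_of_bdd (fun n => hl l (g ^ n).toWord) (fun n => ∑ s, hl (f s) (g ^ n).toWord) 1
    (∑ s, dl g (f s)) (fun n _ => h _) (by
      simp only [Finset.sum_div]
      exact tendsto_finset_sum _ (fun s _ => (dl_lim g (f s)).1))
  rw [tendsto_nhds_unique (dl_lim g l).1 a1, sub_self]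

lemma ind_sub (p q : Prop) [Decidable p] [Decidable q] : |ind p - ind q| ≤ 1 := by
  unfold ind; split_ifs <;> simp

theorem result (S : Type) [DecidableEq S] [Fintype S] [Nontrivial S] (Np : Set (FreeGroup S))
    (h1 : ∀ w ∈ Np, NSO w.toWord) (h2 : ∀ w, NSO w.toWord → (w ∈ Np ↔ w⁻¹ ∉ Np)) :
    ∃ α : FreeGroup S → ℝ, (∀ w, α w⁻¹ = -α w) ∧ (∀ w, ¬ NSO w.toWord → α w = 0) ∧
      (∀ w g : FreeGroup S, Tendsto (fun n : ℕ => brooks w (g ^ n) / n) atTop
        (𝓝 (homog (brooks w) g))) ∧
      (∀ g, {w | α w * brooks w g ≠ 0}.Finite ∧ {w | α w * homog (brooks w) g ≠ 0}.Finite) ∧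
      IsQuasi (fun g => ∑ᶠ w ∈ Np, α w * homog (brooks w) g) ∧
      ¬ IsQuasi (fun g => ∑ᶠ w ∈ Np, α w * brooks w g) := by
  obtain ⟨p, q, hpq⟩ := exists_pair_ne S
  set a : S × Bool := (p, true)
  set b : S × Bool := (q, true)
  have hab : a ≠ b := fun e => hpq (congrArg Prod.fst e)
  have eb : ∀ w g : FreeGroup S, brooks w g = hl w.toWord g.toWord := fun w g => by
    simp [brooks, hl]
  have eh : ∀ w g : FreeGroup S, homog (brooks w) g = dl g w.toWord := fun w g => by
    simp only [homog, dl, eb]
  have k1 := fun (g : FreeGroup S) (K : ℕ) (hK : g.toWord.length ≤ K) =>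
    key hab Np h1 h2 (fun l => hl l g.toWord) K (fun l h => hl_red isReduced_toWord h)
      (fun l h => by
        have := h.len
        rw [hl, occ_zero (fun hi => by have := hi.length_le; omega),
          occ_zero (fun hi => by have := hi.length_le; rw [invRev_length] at this; omega)]
        simp)
      (fun l => by simp [hl])
  have k2 := fun (g : FreeGroup S) =>
    key hab Np h1 h2 (dl g) _
      (fun l h => by simp only [dl, hl_red isReduced_toWord h]; simp [Tendsto.limUnder_eq tendsto_const_nhds])
      (fun l h => (dl_lim g l).2 h)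
      (fun l => by
        refine tendsto_nhds_unique (dl_lim g _).1 ((dl_lim g l).1.neg.congr (fun n => ?_))
        simp only [hl, invRev_invRev]; ring)
  refine ⟨fun w => A a b w.toWord - A a b w⁻¹.toWord, fun w => by simp, fun w hw => ?_,
    fun w g => ?_, fun g => ?_, ⟨0, fun g h => ?_⟩, ?_⟩
  · have : ¬ NSO w⁻¹.toWord := fun h => hw (by simpa using nso_inv h)
    simp only [A_nso hab hw, A_nso hab this, sub_self]
  · simp only [eh, eb]; exact (dl_lim g _).1
  · simp only [eh, eb]; exact ⟨(k1 g _ le_rfl).1, (k2 g).1⟩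
  · have z : ∀ g, ∑ᶠ w ∈ Np, (A a b w.toWord - A a b w⁻¹.toWord) * homog (brooks w) g = 0 := by
      intro g
      simp only [eh]
      rw [(k2 g).2]
      refine Finset.sum_eq_zero (fun k _ => ?_)
      rw [dl_rel g _ _ (fun x => by rw [hl_right]; exact ind_sub _ _),
        dl_rel g _ _ (fun x => by rw [hl_left]; exact ind_sub _ _)]
      simp
    simp only [z]; simp
  · rintro ⟨D, hD⟩
    obtain ⟨k, hk⟩ := exists_nat_gt D
    have := hD (of p) (of q ^ (k + 1))
    have w1 : (of p : FreeGroup S).toWord = [a] := toWord_of p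
    have w2 : (of q ^ (k + 1) : FreeGroup S).toWord = replicate (k + 1) b := toWord_of_pow _ _
    have w3 : (of p * of q ^ (k + 1) : FreeGroup S).toWord = a :: replicate (k + 1) b := by
      rw [toWord_mul, w1, w2, singleton_append]
      apply IsReduced.reduce_eq
      rw [replicate_succ, isReduced_cons_cons, ← replicate_succ, ← w2]
      exact ⟨fun _ => rfl, isReduced_toWord⟩
    simp only [eb] at this
    rw [(k1 _ (k + 2) (by simp [w1])).2, (k1 _ (k + 2) (by simp [w2])).2,
      (k1 _ (k + 2) (by simp [w3])).2] at this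
    simp only [hl_right, hl_left, w1, w2, w3] at this
    have fa : ∀ {x : List (S × Bool)} {l : List (S × Bool)}, (∀ z ∈ x, z.2 = true) → a ∈ l →
        ¬ invRev l <:+: x := by
      intro x l hx hl hi
      have : fl a ∈ invRev l := by
        simp only [invRev, mem_reverse, List.mem_map]; exact ⟨a, hl, rfl⟩
      simpa [fl, a] using hx _ (hi.subset this)
    have fz : ∀ {x : List (S × Bool)} (j : ℕ), (∀ z ∈ x, z.2 = true) →
        ind (invRev (a :: replicate j b) <+: x) = 0 ∧
        ind (invRev (replicate j b ++ [a]) <:+ x) = 0 := fun j hx =>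
      ⟨if_neg (fun h => fa hx (by simp) h.isInfix), if_neg (fun h => fa hx (by simp) h.isInfix)⟩
    have s1 : ∑ j ∈ Finset.range (k + 2), (j : ℝ) * ((ind (a :: replicate j b <:+ [a]) -
        ind (invRev (a :: replicate j b) <+: [a])) - (ind (replicate j b ++ [a] <+: [a]) -
        ind (invRev (replicate j b ++ [a]) <:+ [a]))) = 0 := by
      refine Finset.sum_eq_zero (fun j _ => ?_)
      rcases j with _ | j
      · simp
      rw [(fz _ (by simp [a])).1, (fz _ (by simp [a])).2, ind, ind,
        if_neg (fun h => by have := h.length_le; simp at this),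
        if_neg (fun h => by have := h.length_le; simp at this)]
      simp
    have hb : ∀ m, a ∉ replicate m b := fun m h => hab (eq_of_mem_replicate h)
    have s2 : ∑ j ∈ Finset.range (k + 2), (j : ℝ) * ((ind (a :: replicate j b <:+ replicate (k + 1) b) -
        ind (invRev (a :: replicate j b) <+: replicate (k + 1) b)) -
        (ind (replicate j b ++ [a] <+: replicate (k + 1) b) -
        ind (invRev (replicate j b ++ [a]) <:+ replicate (k + 1) b))) = 0 := by
      refine Finset.sum_eq_zero (fun j _ => ?_)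
      rw [(fz _ (by simp [b])).1, (fz _ (by simp [b])).2, ind, ind,
        if_neg (fun h => hb _ (h.subset (by simp))),
        if_neg (fun h => hb _ (h.subset (by simp)))]
      simp
    have s3 : ∑ j ∈ Finset.range (k + 2), (j : ℝ) *
        ((ind (a :: replicate j b <:+ a :: replicate (k + 1) b) -
        ind (invRev (a :: replicate j b) <+: a :: replicate (k + 1) b)) -
        (ind (replicate j b ++ [a] <+: a :: replicate (k + 1) b) -
        ind (invRev (replicate j b ++ [a]) <:+ a :: replicate (k + 1) b))) = k + 1 := by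
      have hx : ∀ z ∈ a :: replicate (k + 1) b, z.2 = true := by simp [a, b]
      have hz : ∀ j : ℕ, (j : ℝ) * ind (replicate j b ++ [a] <+: a :: replicate (k + 1) b) = 0 := by
        intro j
        rcases j with _ | j
        · simp
        · rw [ind, if_neg, mul_zero]
          rw [replicate_succ, cons_append, cons_prefix_cons]
          exact fun h => hab h.1.symm
      simp only [(fz _ hx).1, (fz _ hx).2, sub_zero, mul_sub, hz]
      rw [Finset.sum_eq_single (k + 1)]
      · simp [ind]
      · intro j _ hj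
        rw [ind, if_neg, mul_zero]
        rw [suffix_cons_iff]
        rintro (h | h)
        · exact hj (by simpa using congrArg length h)
        · exact hb _ (h.subset (by simp))
      · simp
    rw [s1, s2, s3, abs_le] at this
    linarith [this.1]

end Pool.Agent.Results.MP_c1a8be_al.No
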